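import Pool.Agent.H595.Dens.Fin

set_option autoImplicit false

/-!
# The density of the scales with near relations between `1`, `e` and `π`

Let `ξ` be a real number with irrationality exponent two, for instance `ξ = e`, and let `t` be any real number, for
instance `t = π`. For an exponent `w` we consider the scales `X` at which there is a near relation of exponent `w`,
that is, integers `a, b, c`, not all zero, of absolute value at most `X`, with `|a + b ξ + c t| ≤ X ^ (-w)`. We
determine the largest possible lower logarithmic density of this set of scales if `1, ξ, t` are linearly independent: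
it is `1` for `w ≤ φ²`, `φ⁴ / w - φ` for `φ² ≤ w ≤ 3` and `2 / w` for `w ≥ 3`, where `φ = (1 + √5) / 2`. If `1, ξ, t`
are linearly dependent then the density is `1`. So there is a zero-one law: for each `w > φ²` the numbers
`1, e, π` are linearly dependent if and only if the lower logarithmic density of the scales with a near relation of
exponent `w` is larger than `max (2 / w) (φ⁴ / w - φ)`; for instance, `1, e, π` are linearly independent
if and only if at more than half of the scales (in the sense of the upper density) there is no near relation of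
exponent `4 + ε`, for one (or every) `ε > 0`.

(It was known that for `w > φ² = 2.618…` and `1, e, t` linearly independent there are arbitrarily large `X` without a
near relation of exponent `w`; here it is shown how many of these `X` there are, and that this is best possible.)

Method. Let `v_i` be the relations which are minimal and of exponent `w` at their own scale, `X_i` their heights,
`L_i` their values. Elimination of `t` gives `L_i ≥ X_(i+1)^(-2-ε) X_i^(-1-ε)`, and three independent relations give
`L_i ≥ X_(i+1)^(-1) X_(i+2)^(-1) / 6`; both remain true for the subsequence of the relations at which the plane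
spanned by two consecutive ones changes. The bound follows from these inequalities by a potential argument, in which
the two inequalities are weighted such that the sum telescopes. For the lower bounds `t` is constructed as a limit of
numbers with exact relations (`w ≥ 3`), or `(ξ, t) = (ξ, ξ²)` with the continued fraction `ξ` given by the
Fibonacci word on `1, 2`, an extremal number of D. Roy (`φ² ≤ w ≤ 3`).
-/

namespace Pool.Agent.Results.MP_58e087_nt.DensityOfScales

open Filter MeasureTheory Real

/-- `ξ` has irrationality exponent (at most) two -/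
def ExponentTwo (ξ : ℝ) : Prop := ∀ ε : ℝ, 0 < ε → ∃ c : ℝ, 0 < c ∧ ∀ p q : ℤ, 1 ≤ q →
  c * (q : ℝ) ^ (-(1 + ε)) ≤ |q * ξ - p|

/-- a near relation of exponent `w` at the scale `X` -/
def NearRelation (ξ t w X : ℝ) : Prop := ∃ a b c : ℤ, ¬ (a = 0 ∧ b = 0 ∧ c = 0) ∧
  |(a : ℝ)| ≤ X ∧ |(b : ℝ)| ≤ X ∧ |(c : ℝ)| ≤ X ∧ |a + b * ξ + c * t| ≤ X ^ (-w)

/-- the logarithms `x` of the scales with a near relation of exponent `w` -/
def logScales (ξ t w : ℝ) : Set ℝ := {x | NearRelation ξ t w (exp x)}

/-- the lower density of a set of positive real numbers; for the set of the logarithms of the elements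
of a set of scales it is the lower logarithmic density of the set of scales -/
noncomputable def lowerDensity (S : Set ℝ) : ℝ :=
  liminf (fun T : ℝ => (volume (S ∩ Set.Icc 0 T)).toReal / T) atTop

/-- the largest possible density, for `w ≥ φ²` -/
noncomputable def law (w : ℝ) : ℝ := max (2 / w) (goldenRatio ^ 4 / w - goldenRatio)

theorem logScales_eq (ξ t w : ℝ) :
    logScales ξ t w = Pool.Agent.H595.Dens.nearScales (Pool.Agent.H595.Dens.th ξ t) w := by
  ext x
  constructor
  · rintro ⟨a, b, c, h0, ha, hb, hc, h⟩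
    refine ⟨![a, b, c], ?_, ?_, ?_⟩
    · intro h1
      apply h0
      exact ⟨congrFun h1 0, congrFun h1 1, congrFun h1 2⟩
    · intro i
      fin_cases i
      · exact ha
      · exact hb
      · exact hc
    · rw [Pool.Agent.H595.Dens.sum_th]
      exact h
  · rintro ⟨v, hv, h1, h2⟩
    rw [Pool.Agent.H595.Dens.sum_th] at h2
    refine ⟨v 0, v 1, v 2, ?_, h1 0, h1 1, h1 2, h2⟩
    rintro ⟨h3, h4, h5⟩
    apply hv
    funext i
    fin_cases i
    · exact h3
    · exact h4
    · exact h5

theorem phi_four : goldenRatio ^ 4 = 3 * goldenRatio + 2 := by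
  have h := goldenRatio_sq
  have : goldenRatio ^ 4 = (goldenRatio ^ 2) ^ 2 := by ring
  rw [this, h]
  nlinarith

theorem law_high {w : ℝ} (hw : 3 ≤ w) : law w = 2 / w := by
  have hw0 : 0 < w := by linarith
  rw [law, max_eq_left]
  rw [phi_four, sub_le_iff_le_add, div_le_iff₀ hw0, add_mul, div_mul_cancel₀ _ hw0.ne']
  have h := mul_le_mul_of_nonneg_left hw goldenRatio_pos.le
  linarith

theorem law_low {w : ℝ} (hw0 : 0 < w) (hw : w ≤ 3) : law w = goldenRatio ^ 4 / w - goldenRatio := by
  rw [law, max_eq_right]
  rw [phi_four, le_sub_iff_add_le, le_div_iff₀ hw0, add_mul, div_mul_cancel₀ _ hw0.ne']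
  have h := mul_le_mul_of_nonneg_left hw goldenRatio_pos.le
  linarith

theorem law_lt_one {w : ℝ} (hw : goldenRatio ^ 2 < w) : law w < 1 := by
  have h1 := one_lt_goldenRatio
  have h2 := goldenRatio_sq
  have hw2 : 2 < w := by nlinarith
  have hw0 : 0 < w := by linarith
  apply max_lt
  · rw [div_lt_one hw0]
    exact hw2
  · rw [phi_four, sub_lt_iff_lt_add, div_lt_iff₀ hw0]
    nlinarith

theorem upper {ξ t w : ℝ} (hξ : ExponentTwo ξ) (ht : LinearIndependent ℚ ![(1 : ℝ), ξ, t]) (hw : 2 < w) :
    lowerDensity (logScales ξ t w) ≤ law w := by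
  have hlin : Pool.Agent.H595.Dens.LinB ξ := Pool.Agent.H595.Dens.linB_of_expTwo hξ
  rw [Pool.Agent.H595.Dens.indep_iff] at ht
  rw [logScales_eq]
  rcases le_or_gt w 3 with h3 | h3
  · exact (Pool.Agent.H595.Dens.dens_three_low hlin ht hw h3).trans (le_max_right _ _)
  · exact (Pool.Agent.H595.Dens.dens_three_high hlin ht h3).trans (le_max_left _ _)

theorem expTwo_e : ExponentTwo (exp 1) :=
  Pool.Agent.H595.Dens.expTwo_of_linB Pool.Agent.H595.Dens.linB_e

theorem zero_one (t w : ℝ) (hw : goldenRatio ^ 2 < w) : ¬ LinearIndependent ℚ ![(1 : ℝ), exp 1, t] ↔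
    law w < lowerDensity (logScales (exp 1) t w) := by
  have h1 := one_lt_goldenRatio
  have h2 := goldenRatio_sq
  have hw2 : 2 < w := by nlinarith
  constructor
  · intro h
    rw [Pool.Agent.H595.Dens.indep_iff] at h
    push Not at h
    obtain ⟨v, hv, h0⟩ := h
    rw [logScales_eq]
    refine (law_lt_one hw).trans_le (le_of_eq ?_)
    exact (Pool.Agent.H595.Dens.density_one hv h0 w).symm
  · intro h hind
    exact absurd h (not_lt.2 (upper expTwo_e hind hw2))

theorem result :
    -- (1) the upper bound
    (∀ ξ : ℝ, ExponentTwo ξ → ∀ t : ℝ, LinearIndependent ℚ ![(1 : ℝ), ξ, t] → ∀ w : ℝ, 2 < w →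
      lowerDensity (logScales ξ t w) ≤ law w) ∧
    -- (2) the number `e`, the zero-one law, and the case of `1, e, π`
    (ExponentTwo (exp 1) ∧
      (∀ t w : ℝ, goldenRatio ^ 2 < w → law w < 1 ∧
        (¬ LinearIndependent ℚ ![(1 : ℝ), exp 1, t] ↔ law w < lowerDensity (logScales (exp 1) t w)) ∧
        (¬ LinearIndependent ℚ ![(1 : ℝ), exp 1, t] → lowerDensity (logScales (exp 1) t w) = 1)) ∧
      (∀ w : ℝ, goldenRatio ^ 2 < w → (LinearIndependent ℚ ![(1 : ℝ), exp 1, π] ↔
        lowerDensity (logScales (exp 1) π w) ≤ law w))) ∧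
    -- (3) the bound is best possible for `ξ = e` and `w ≥ 3`, for a dense set of numbers `t`
    (∀ a b : ℝ, a < b → ∃ t : ℝ, a < t ∧ t < b ∧ LinearIndependent ℚ ![(1 : ℝ), exp 1, t] ∧
      ∀ w : ℝ, 3 ≤ w → lowerDensity (logScales (exp 1) t w) = law w) ∧
    -- (4) the bound is best possible for `φ² ≤ w ≤ 3`
    (∃ ξ t : ℝ, ExponentTwo ξ ∧ LinearIndependent ℚ ![(1 : ℝ), ξ, t] ∧
      ∀ w : ℝ, goldenRatio ^ 2 ≤ w → w ≤ 3 → lowerDensity (logScales ξ t w) = law w) ∧
    -- (5) the values of the bound
    ((∀ w : ℝ, 3 ≤ w → law w = 2 / w) ∧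
      (∀ w : ℝ, 0 < w → w ≤ 3 → law w = goldenRatio ^ 4 / w - goldenRatio) ∧ law (goldenRatio ^ 2) = 1) := by
  refine ⟨fun ξ hξ t ht w hw => upper hξ ht hw, ⟨expTwo_e, fun t w hw => ⟨law_lt_one hw, zero_one t w hw, ?_⟩,
    fun w hw => ?_⟩, fun a b hab => ?_, ?_, fun w hw => law_high hw, fun w h1 h2 => law_low h1 h2, ?_⟩
  · intro h
    rw [Pool.Agent.H595.Dens.indep_iff] at h
    push Not at h
    obtain ⟨v, hv, h0⟩ := h
    rw [logScales_eq]
    exact Pool.Agent.H595.Dens.density_one hv h0 w
  · rw [← not_iff_not, zero_one π w hw, not_le]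
  · obtain ⟨t, h1, h2, h3, h4⟩ := Pool.Agent.H595.Dens.exists_t_three Pool.Agent.H595.Dens.linB_e hab
    have hind : LinearIndependent ℚ ![(1 : ℝ), exp 1, t] := (Pool.Agent.H595.Dens.indep_iff _ _).2 h3
    refine ⟨t, h1, h2, hind, fun w hw => le_antisymm (upper expTwo_e hind (by linarith)) ?_⟩
    rw [law_high hw, logScales_eq]
    exact h4 w (by linarith)
  · have hind : LinearIndependent ℚ ![(1 : ℝ), Pool.Agent.H595.Dens.Fib.ξ, Pool.Agent.H595.Dens.Fib.ξ ^ 2] :=
      (Pool.Agent.H595.Dens.indep_iff _ _).2 Pool.Agent.H595.Dens.Fib.indep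
    have hexp : ExponentTwo Pool.Agent.H595.Dens.Fib.ξ :=
      Pool.Agent.H595.Dens.expTwo_of_linB Pool.Agent.H595.Dens.Fib.linB
    refine ⟨_, _, hexp, hind, fun w hw hw3 => ?_⟩
    have h1 := one_lt_goldenRatio
    have h2 := goldenRatio_sq
    have hw2 : 2 < w := by nlinarith
    refine le_antisymm (upper hexp hind hw2) ?_
    rw [law_low (by linarith) hw3, logScales_eq]
    exact Pool.Agent.H595.Dens.Fib.dens hw hw3
  · have h1 := goldenRatio_pos
    have h2 := goldenRatio_sq
    rw [law_low (by positivity) (by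
      have h5 : √5 < 3 := by
        rw [show (3 : ℝ) = √(3 ^ 2) by rw [Real.sqrt_sq (by norm_num)]]
        exact Real.sqrt_lt_sqrt (by norm_num) (by norm_num)
      rw [h2, goldenRatio]
      linarith)]
    rw [show goldenRatio ^ 4 = goldenRatio ^ 2 * goldenRatio ^ 2 by ring, mul_div_assoc,
      div_self (by positivity), mul_one, h2]
    ring

end Pool.Agent.Results.MP_58e087_nt.DensityOfScales
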