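import Pool.Agent.H596.U.Win

/-!
# Near relations between arbitrary numbers and exponentials of algebraic numbers are exact
# relations at a nearby point; `e` and `π`: dependence, or long windows of good scales

Let `α_1, …, α_n` be algebraic numbers (not necessarily independent) and let `t_1, …, t_r` be
ARBITRARY complex numbers, for instance `t_1 = π`. We consider the values `P(t, e^α)` of the integer
polynomials `P` of bounded degree with coefficients of absolute value at most `H` (the scale).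

(1) For all `k₀` there is `k`, independent of the scale and of `t`, such that ALL the relations
    which hold up to `H^(-k)` at `t` hold EXACTLY at one point `t'` with `|t' - t| ≤ H^(-k₀)`
    (and the values of all other polynomials at `t'` differ from those at `t` by at most
    `H^(-k₀)`).
(2) So a system of equations `P(T, e^α) = 0`, `P` in any family, without solutions `T` in `ℂ^r`
    has at every point `t` (of size at most `H^B`) a member with `|P(t, e^α)| > H^(-k)`.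
(3) Two different numbers which are algebraic over the field of the `e^(α_i)` (of bounded degree
    and height) have a distance larger than `H^(-k)`.
(4) A criterion of Gel'fond's type over the field of the `e^(α_i)`: if the complex number `t` is
    transcendental over this field, then for all `d, A` there are `k` and arbitrarily large `X`
    such that no polynomial has a nonzero value of absolute value at most `H^(-k)` at `(t, e^α)`,
    for ALL the scales `H` from `X` to `X^A`.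
(5) For linearly independent `α_i`: either `t, e^(α_1), …, e^(α_n)` are algebraically dependent,
    or they have a measure of algebraic independence in arbitrarily long windows of scales as in
    (4). In particular for `t = π`, `α = 1`: either there is an algebraic relation between `e` and
    `π`, or for all `A` there are `k` and arbitrarily large `X` such that
    `|a + b e + c π| > H^(-k)` for all integers `a, b, c`, not all zero, of absolute value at most
    `H`, for all `H` from `X` to `X^A` (and the same for polynomials of each degree in `e`, `π`).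

The proof: a quantitative theorem of Lindemann and Weierstrass (`Pool.Agent.H596.Q`) says that in an
ultrapower of `ℂ` the field generated by the `e^(α_i)` and the polynomially bounded integers
consists of polynomially bounded numbers; such a field can be extended by each polynomially
bounded number, up to a polynomially small error (`Pool.Agent.H596.U`).
-/

set_option autoImplicit false

namespace Pool.Agent.Results.MP_58e087_nt.ExactRelationsNearby

open H596.U

/-- the value of `P` at `(t_1, …, t_r, e^(α_1), …, e^(α_n))` -/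
noncomputable def value {r n : ℕ} (t : Fin r → ℂ) (α : Fin n → ℂ)
    (P : MvPolynomial (Fin r ⊕ Fin n) ℤ) : ℂ :=
  MvPolynomial.aeval (Sum.elim t fun i => Complex.exp (α i)) P

/-- the integer polynomials in `r + n` variables, of total degree at most `d`, with coefficients
of absolute value at most `H` -/
def Poly (r n d : ℕ) (H : ℝ) : Set (MvPolynomial (Fin r ⊕ Fin n) ℤ) :=
  {P | P.totalDegree ≤ d ∧ ∀ m, |((P.coeff m : ℤ) : ℝ)| ≤ H}

lemma le_one_div {x H : ℝ} {k : ℕ} (hH : 2 ≤ H) : x ≤ 1 / H ^ k ↔ x * H ^ k ≤ 1 := by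
  rw [le_div_iff₀ (by positivity)]

lemma one_div_lt {x H : ℝ} {k : ℕ} (hH : 2 ≤ H) : 1 / H ^ k < x ↔ 1 < x * H ^ k := by
  rw [div_lt_iff₀ (by positivity)]

/-- (1) -/
theorem nearby {r n : ℕ} (α : Fin n → ℂ) (hα : ∀ i, IsAlgebraic ℚ (α i)) (d B k₀ : ℕ) :
    ∃ k : ℕ, ∀ H : ℝ, 2 ≤ H → ∀ t : Fin r → ℂ, (∀ i, ‖t i‖ ≤ H ^ B) →
      ∃ t' : Fin r → ℂ, (∀ i, ‖t' i - t i‖ ≤ 1 / H ^ k₀) ∧ ∀ P ∈ Poly r n d H,
        ‖value t' α P - value t α P‖ ≤ 1 / H ^ k₀ ∧
          (‖value t α P‖ ≤ 1 / H ^ k → value t' α P = 0) := by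
  obtain ⟨k, hk⟩ := transfer (τ := Fin r) (meas_exp α hα) d B k₀
  refine ⟨k, fun H hH t ht => ?_⟩
  obtain ⟨t', h1, h2⟩ := hk H hH t ht
  refine ⟨t', fun i => (le_one_div hH).2 (h1 i), fun P hP => ⟨(le_one_div hH).2
    (h2 P hP.1 hP.2).1, fun h3 => (h2 P hP.1 hP.2).2 ((le_one_div hH).1 h3)⟩⟩

/-- (2) -/
theorem systems {r n : ℕ} (α : Fin n → ℂ) (hα : ∀ i, IsAlgebraic ℚ (α i)) (d B : ℕ) :
    ∃ k : ℕ, ∀ H : ℝ, 2 ≤ H → ∀ S ⊆ Poly r n d H, (¬ ∃ z, ∀ P ∈ S, value z α P = 0) →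
      ∀ t : Fin r → ℂ, (∀ i, ‖t i‖ ≤ H ^ B) → ∃ P ∈ S, 1 / H ^ k < ‖value t α P‖ := by
  obtain ⟨k, hk⟩ := nearby (r := r) α hα d B 0
  refine ⟨k, fun H hH S hS hno t ht => ?_⟩
  by_contra hcon
  push Not at hcon
  obtain ⟨t', -, h2⟩ := hk H hH t ht
  exact hno ⟨t', fun P hP => (h2 P (hS hP)).2 (hcon P hP)⟩

/-- the variables for one number -/
def e1 (n : ℕ) : Fin 1 ⊕ Fin n ≃ Unit ⊕ Fin n := Equiv.sumCongr (Equiv.ofUnique _ _) (.refl _)

lemma rename_mem {n d : ℕ} {H : ℝ} {P : MvPolynomial (Fin 1 ⊕ Fin n) ℤ} (hP : P ∈ Poly 1 n d H) :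
    (MvPolynomial.rename (e1 n) P).totalDegree ≤ d ∧
      ∀ m, |(((MvPolynomial.rename (e1 n) P).coeff m : ℤ) : ℝ)| ≤ H := by
  refine ⟨(MvPolynomial.totalDegree_rename_le _ _).trans hP.1, fun m => ?_⟩
  have h1 : m = (m.equivMapDomain (e1 n).symm).mapDomain (e1 n) := by
    rw [← Finsupp.equivMapDomain_eq_mapDomain, ← Finsupp.equivMapDomain_trans, Equiv.symm_trans_self,
      Finsupp.equivMapDomain_refl]
  rw [h1, MvPolynomial.coeff_rename_mapDomain _ (e1 n).injective]
  exact hP.2 _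

lemma value_eq {n : ℕ} (z : Fin 1 → ℂ) (α : Fin n → ℂ) (P : MvPolynomial (Fin 1 ⊕ Fin n) ℤ) :
    value z α P = MvPolynomial.aeval (Sum.elim (fun _ : Unit => z 0) fun i => Complex.exp (α i))
      (MvPolynomial.rename (e1 n) P) := by
  rw [value, MvPolynomial.aeval_rename]
  congr 2
  funext j
  rcases j with j | j
  · rw [Subsingleton.elim j 0]; rfl
  · rfl

/-- (3) -/
theorem separated {n : ℕ} (α : Fin n → ℂ) (hα : ∀ i, IsAlgebraic ℚ (α i)) (d : ℕ) :
    ∃ k : ℕ, ∀ H : ℝ, 2 ≤ H → ∀ P ∈ Poly 1 n d H, ∀ Q ∈ Poly 1 n d H,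
      (∃ u, value u α P ≠ 0) → (∃ u, value u α Q ≠ 0) →
      ∀ z w, value z α P = 0 → value w α Q = 0 → z ≠ w → 1 / H ^ k < ‖z 0 - w 0‖ := by
  obtain ⟨k, hk⟩ := separation (meas_exp α hα) d
  refine ⟨k, fun H hH P hP Q hQ hP0 hQ0 z w hz hw hne => ?_⟩
  rw [one_div_lt hH]
  by_contra hcon
  apply hne
  have hsp : ∀ R : MvPolynomial (Fin 1 ⊕ Fin n) ℤ, (∃ u, value u α R ≠ 0) →
      spec (fun i => Complex.exp (α i)) (MvPolynomial.rename (e1 n) R) ≠ 0 := by
    rintro R ⟨u, hu⟩ h0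
    apply hu
    rw [value_eq, ← eval_spec, h0, Polynomial.eval_zero]
  have h1 := hk H hH (z 0) (w 0) _ _ (rename_mem hP).1 (rename_mem hQ).1 (rename_mem hP).2
    (rename_mem hQ).2 (hsp P hP0) (hsp Q hQ0) (by rw [← value_eq]; exact hz)
    (by rw [← value_eq]; exact hw) (not_lt.1 hcon)
  funext i
  rw [Subsingleton.elim i 0]
  exact h1

/-- (4) with a hypothesis on polynomials -/
theorem windows' {n : ℕ} (α : Fin n → ℂ) (hα : ∀ i, IsAlgebraic ℚ (α i)) (t : ℂ)
    (ht : ∀ P, value (fun _ : Fin 1 => t) α P = 0 → ∀ z, value z α P = 0) (d A : ℕ) :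
    ∃ k : ℕ, ∀ X₀ : ℝ, ∃ X : ℝ, X₀ ≤ X ∧ 2 ≤ X ∧ ∀ H : ℝ, X ≤ H → H ≤ X ^ A →
      ∀ P ∈ Poly 1 n d H, value (fun _ => t) α P ≠ 0 →
        1 / H ^ k < ‖value (fun _ => t) α P‖ := by
  obtain ⟨k, hk⟩ := windows (meas_exp α hα) t (fun P hP => by
    have h1 : ∀ z : ℂ, value (fun _ => z) α (MvPolynomial.rename (e1 n).symm P) =
        MvPolynomial.aeval (Sum.elim (fun _ : Unit => z) fun i => Complex.exp (α i)) P := by
      intro z
      rw [value_eq, MvPolynomial.rename_rename, Equiv.self_comp_symm, MvPolynomial.rename_id_apply]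
    have h2 := ht (MvPolynomial.rename (e1 n).symm P) (by rw [h1]; exact hP)
    refine Polynomial.funext fun z => ?_
    rw [eval_spec, ← h1, h2, Polynomial.eval_zero]) d A
  refine ⟨k, fun X₀ => ?_⟩
  obtain ⟨X, h1, h2, h3⟩ := hk X₀
  refine ⟨X, h1, h2, fun H hX hH P hP hP0 => ?_⟩
  have h4 := value_eq (fun _ : Fin 1 => t) α P
  rw [one_div_lt (h2.trans hX), h4]
  exact h3 H hX hH _ (rename_mem hP).1 (rename_mem hP).2 (by rw [← h4]; exact hP0)

/-- A polynomial which vanishes at a transcendental number vanishes identically. -/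
lemma vanishes_of_transcendental {n : ℕ} (α : Fin n → ℂ) (t : ℂ)
    (ht : Transcendental (Algebra.adjoin ℤ (Set.range fun i => Complex.exp (α i))) t)
    (P : MvPolynomial (Fin 1 ⊕ Fin n) ℤ) (hP : value (fun _ : Fin 1 => t) α P = 0)
    (z : Fin 1 → ℂ) : value z α P = 0 := by
  let R := Algebra.adjoin ℤ (Set.range fun i => Complex.exp (α i))
  let y : Fin n → R := fun i => ⟨Complex.exp (α i), Algebra.subset_adjoin ⟨i, rfl⟩⟩
  let f : Polynomial R := MvPolynomial.aeval
    (Sum.elim (fun _ => Polynomial.X) fun i => Polynomial.C (y i)) P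
  have hf : ∀ w : ℂ, Polynomial.aeval w f = value (fun _ : Fin 1 => w) α P := by
    intro w
    have h1 : ((Polynomial.aeval w : Polynomial R →ₐ[R] ℂ).restrictScalars ℤ).comp
        (MvPolynomial.aeval (Sum.elim (fun _ => Polynomial.X) fun i => Polynomial.C (y i)) :
          MvPolynomial (Fin 1 ⊕ Fin n) ℤ →ₐ[ℤ] Polynomial R) =
        MvPolynomial.aeval (Sum.elim (fun _ : Fin 1 => w) fun i => Complex.exp (α i)) := by
      ext j
      rcases j with j | j
      · simp
      · simp only [AlgHom.comp_apply, MvPolynomial.aeval_X, Sum.elim_inr,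
          AlgHom.restrictScalars_apply, Polynomial.aeval_C]
        rfl
    exact congrArg (fun g => g P) h1
  have hf0 : f = 0 := by
    by_contra hne
    exact ht ⟨f, hne, (hf t).trans hP⟩
  have hz : z = fun _ => z 0 := by
    funext i
    rw [Subsingleton.elim i 0]
  rw [hz, ← hf, hf0, map_zero]

/-- (5) -/
theorem alternative {n : ℕ} (α : Fin n → ℂ) (hα : ∀ i, IsAlgebraic ℚ (α i)) (t : ℂ) :
    (∃ P ≠ 0, value (fun _ : Fin 1 => t) α P = 0) ∨
      ∀ d A : ℕ, ∃ k : ℕ, ∀ X₀ : ℝ, ∃ X : ℝ, X₀ ≤ X ∧ 2 ≤ X ∧ ∀ H : ℝ, X ≤ H → H ≤ X ^ A →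
        ∀ P ∈ Poly 1 n d H, P ≠ 0 → 1 / H ^ k < ‖value (fun _ => t) α P‖ := by
  by_cases h : ∃ P ≠ 0, value (fun _ : Fin 1 => t) α P = 0
  · exact Or.inl h
  · push Not at h
    refine Or.inr fun d A => ?_
    obtain ⟨k, hk⟩ := windows' α hα t (fun P hP z => by
      have h0 : P = 0 := by
        by_contra hne
        exact h P hne hP
      rw [h0, value, map_zero]) d A
    refine ⟨k, fun X₀ => ?_⟩
    obtain ⟨X, h1, h2, h3⟩ := hk X₀
    exact ⟨X, h1, h2, fun H hX hH P hP hP0 => h3 H hX hH P hP (h P hP0)⟩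

/-- the linear form `a + b e + c t` as a polynomial -/
noncomputable def lin (a b c : ℤ) : MvPolynomial (Fin 1 ⊕ Fin 1) ℤ :=
  MvPolynomial.monomial 0 a + MvPolynomial.monomial (Finsupp.single (Sum.inr 0) 1) b +
    MvPolynomial.monomial (Finsupp.single (Sum.inl 0) 1) c

lemma single_ne_zero' (x : Fin 1 ⊕ Fin 1) : (0 : Fin 1 ⊕ Fin 1 →₀ ℕ) ≠ Finsupp.single x 1 := by
  intro h
  have := DFunLike.congr_fun h x
  simp at this

lemma single_ne_single : (Finsupp.single (Sum.inr 0) 1 : Fin 1 ⊕ Fin 1 →₀ ℕ) ≠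
    Finsupp.single (Sum.inl 0) 1 := by
  intro h
  have := DFunLike.congr_fun h (Sum.inr 0)
  simp at this

lemma lin_coeff (a b c : ℤ) (m : Fin 1 ⊕ Fin 1 →₀ ℕ) : (lin a b c).coeff m =
    (if 0 = m then a else 0) + (if Finsupp.single (Sum.inr 0) 1 = m then b else 0) +
      (if Finsupp.single (Sum.inl 0) 1 = m then c else 0) := by
  classical
  rw [lin, MvPolynomial.coeff_add, MvPolynomial.coeff_add, MvPolynomial.coeff_monomial,
    MvPolynomial.coeff_monomial, MvPolynomial.coeff_monomial]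

lemma lin_mem (a b c : ℤ) (H : ℝ) (ha : |(a : ℝ)| ≤ H) (hb : |(b : ℝ)| ≤ H) (hc : |(c : ℝ)| ≤ H) :
    lin a b c ∈ Poly 1 1 1 H := by
  classical
  refine ⟨?_, fun m => ?_⟩
  · refine (MvPolynomial.totalDegree_add _ _).trans (max_le
      ((MvPolynomial.totalDegree_add _ _).trans (max_le ?_ ?_)) ?_)
    all_goals
      refine (MvPolynomial.totalDegree_monomial_le _ _).trans ?_
      simp
  · rw [lin_coeff]
    by_cases h0 : 0 = m
    · subst h0
      rw [if_pos rfl, if_neg (single_ne_zero' _).symm, if_neg (single_ne_zero' _).symm]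
      simpa using ha
    · by_cases h1 : Finsupp.single (Sum.inr 0) 1 = m
      · subst h1
        rw [if_neg (single_ne_zero' _), if_pos rfl, if_neg single_ne_single.symm]
        simpa using hb
      · by_cases h2 : Finsupp.single (Sum.inl 0) 1 = m
        · rw [if_neg h0, if_neg h1, if_pos h2]
          simpa using hc
        · rw [if_neg h0, if_neg h1, if_neg h2]
          simpa using (abs_nonneg _).trans ha

lemma lin_ne (a b c : ℤ) (h : ¬ (a = 0 ∧ b = 0 ∧ c = 0)) : lin a b c ≠ 0 := by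
  classical
  intro h0
  apply h
  have h1 := lin_coeff a b c 0
  have h2 := lin_coeff a b c (Finsupp.single (Sum.inr 0) 1)
  have h3 := lin_coeff a b c (Finsupp.single (Sum.inl 0) 1)
  rw [h0, MvPolynomial.coeff_zero] at h1 h2 h3
  rw [if_pos rfl, if_neg (single_ne_zero' _).symm, if_neg (single_ne_zero' _).symm] at h1
  rw [if_neg (single_ne_zero' _), if_pos rfl, if_neg single_ne_single.symm] at h2
  rw [if_neg (single_ne_zero' _), if_neg single_ne_single, if_pos rfl] at h3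
  refine ⟨?_, ?_, ?_⟩ <;> omega

lemma lin_value (a b c : ℤ) : value (fun _ : Fin 1 => (Real.pi : ℂ)) (fun _ : Fin 1 => 1)
    (lin a b c) = ((a + b * Real.exp 1 + c * Real.pi : ℝ) : ℂ) := by
  rw [value, lin, map_add, map_add, MvPolynomial.aeval_monomial, MvPolynomial.aeval_monomial,
    MvPolynomial.aeval_monomial]
  simp

/-- **Near relations are exact relations nearby.** -/
theorem result :
    -- (1) for all algebraic `α` and all `t`: the near relations are exact at a nearby point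
    (∀ (r n : ℕ) (α : Fin n → ℂ), (∀ i, IsAlgebraic ℚ (α i)) → ∀ d B k₀ : ℕ,
      ∃ k : ℕ, ∀ H : ℝ, 2 ≤ H → ∀ t : Fin r → ℂ, (∀ i, ‖t i‖ ≤ H ^ B) →
        ∃ t' : Fin r → ℂ, (∀ i, ‖t' i - t i‖ ≤ 1 / H ^ k₀) ∧ ∀ P ∈ Poly r n d H,
          ‖value t' α P - value t α P‖ ≤ 1 / H ^ k₀ ∧
            (‖value t α P‖ ≤ 1 / H ^ k → value t' α P = 0)) ∧
    -- (2) systems without solutions
    (∀ (r n : ℕ) (α : Fin n → ℂ), (∀ i, IsAlgebraic ℚ (α i)) → ∀ d B : ℕ,
      ∃ k : ℕ, ∀ H : ℝ, 2 ≤ H → ∀ S ⊆ Poly r n d H, (¬ ∃ z, ∀ P ∈ S, value z α P = 0) →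
        ∀ t : Fin r → ℂ, (∀ i, ‖t i‖ ≤ H ^ B) → ∃ P ∈ S, 1 / H ^ k < ‖value t α P‖) ∧
    -- (3) separation of numbers which are algebraic over the field of the `e^(α_i)`
    (∀ (n : ℕ) (α : Fin n → ℂ), (∀ i, IsAlgebraic ℚ (α i)) → ∀ d : ℕ,
      ∃ k : ℕ, ∀ H : ℝ, 2 ≤ H → ∀ P ∈ Poly 1 n d H, ∀ Q ∈ Poly 1 n d H,
        (∃ u, value u α P ≠ 0) → (∃ u, value u α Q ≠ 0) →
        ∀ z w, value z α P = 0 → value w α Q = 0 → z ≠ w → 1 / H ^ k < ‖z 0 - w 0‖) ∧
    -- (4) numbers transcendental over the field of the `e^(α_i)`: windows of good scales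
    (∀ (n : ℕ) (α : Fin n → ℂ), (∀ i, IsAlgebraic ℚ (α i)) → ∀ t : ℂ,
      Transcendental (Algebra.adjoin ℤ (Set.range fun i => Complex.exp (α i))) t →
      ∀ d A : ℕ, ∃ k : ℕ, ∀ X₀ : ℝ, ∃ X : ℝ, X₀ ≤ X ∧ 2 ≤ X ∧ ∀ H : ℝ, X ≤ H → H ≤ X ^ A →
        ∀ P ∈ Poly 1 n d H, value (fun _ => t) α P ≠ 0 →
          1 / H ^ k < ‖value (fun _ => t) α P‖) ∧
    -- (5) algebraic dependence, or windows of good scales
    (∀ (n : ℕ) (α : Fin n → ℂ), (∀ i, IsAlgebraic ℚ (α i)) → ∀ t : ℂ,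
      (∃ P ≠ 0, value (fun _ : Fin 1 => t) α P = 0) ∨
      ∀ d A : ℕ, ∃ k : ℕ, ∀ X₀ : ℝ, ∃ X : ℝ, X₀ ≤ X ∧ 2 ≤ X ∧ ∀ H : ℝ, X ≤ H → H ≤ X ^ A →
        ∀ P ∈ Poly 1 n d H, P ≠ 0 → 1 / H ^ k < ‖value (fun _ => t) α P‖) ∧
    -- (5) for `e` and `π`
    ((∃ P : MvPolynomial (Fin 2) ℤ, P ≠ 0 ∧
        MvPolynomial.aeval ![(Real.pi : ℂ), Complex.exp 1] P = 0) ∨
      ∀ A : ℕ, ∃ k : ℕ, ∀ X₀ : ℝ, ∃ X : ℝ, X₀ ≤ X ∧ 2 ≤ X ∧ ∀ H : ℝ, X ≤ H → H ≤ X ^ A →
        ∀ a b c : ℤ, |(a : ℝ)| ≤ H → |(b : ℝ)| ≤ H → |(c : ℝ)| ≤ H → ¬ (a = 0 ∧ b = 0 ∧ c = 0) →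
          1 / H ^ k < |a + b * Real.exp 1 + c * Real.pi|) := by
  refine ⟨fun r n α hα d B k₀ => nearby α hα d B k₀, fun r n α hα d B => systems α hα d B,
    fun n α hα d => separated α hα d, fun n α hα t ht d A => windows' α hα t
      (fun P hP z => vanishes_of_transcendental α t ht P hP z) d A,
    fun n α hα t => alternative α hα t, ?_⟩
  rcases alternative (fun _ : Fin 1 => (1 : ℂ)) (fun _ => isAlgebraic_one) (Real.pi : ℂ) with h | h
  · left
    obtain ⟨P, hP, h0⟩ := h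
    let f : Fin 1 ⊕ Fin 1 → Fin 2 := Sum.elim (fun _ => 0) fun _ => 1
    have hf : Function.Injective f := by
      rintro (i | i) (j | j) hij
      · rw [Subsingleton.elim i j]
      · exact absurd hij (by simp [f])
      · exact absurd hij (by simp [f])
      · rw [Subsingleton.elim i j]
    refine ⟨MvPolynomial.rename f P, fun h1 => hP ?_, ?_⟩
    · exact MvPolynomial.rename_injective f hf (by rw [h1, map_zero])
    · rw [MvPolynomial.aeval_rename, ← h0, value]
      congr 2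
      funext j
      rcases j with j | j <;> simp [f]
  · right
    intro A
    obtain ⟨k, hk⟩ := h 1 A
    refine ⟨k, fun X₀ => ?_⟩
    obtain ⟨X, h1, h2, h3⟩ := hk X₀
    refine ⟨X, h1, h2, fun H hX hH a b c ha hb hc hne => ?_⟩
    have h4 := h3 H hX hH (lin a b c) (lin_mem a b c H ha hb hc) (lin_ne a b c hne)
    rw [lin_value, Complex.norm_real, Real.norm_eq_abs] at h4
    exact h4

end Pool.Agent.Results.MP_58e087_nt.ExactRelationsNearby
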