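import Pool.Agent.H596.Q.One

/-!
# `π` and the exponentials of algebraic numbers: at every scale only one line of exponents is
# exceptional, and it lies on the real or on the imaginary axis

We compare, at one scale `H`, all polynomial relations (of bounded degree, with integer
coefficients of absolute value at most `H`) between a number `t`, for instance `t = π`, and the
exponentials `e ^ α` of algebraic numbers `α`. A value is called small if it is less than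
`c H ^ (-κ)`.

(1) For ALL complex `t`: all polynomials with a small value at `(t, e^(α_1), …, e^(α_n))` are
    divisible by one irreducible polynomial, if the `α_i` are linearly independent over `ℚ`.
(2) If `t` has a transcendence measure: for two families `α_1, …, α_m` and `β_1, …, β_n` which are
    together linearly independent, at every scale no nonzero polynomial is small at
    `(t, e^(α_1), …, e^(α_m))` or no nonzero polynomial is small at `(t, e^(β_1), …, e^(β_n))`.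
(3) If `t` is also real: `t, e^(α_1), …, e^(α_n)` have a measure of algebraic independence if the
    numbers `α_i` and their complex conjugates are linearly independent.
(4) At every scale all the exceptional exponents lie on one rational line, contained in the real
    or in the imaginary axis (for real `t` with a transcendence measure).
(5) At every scale `H`: no nonzero `a + b e + k π` with `|a|, |b|, |k| ≤ H` is small, or no nonzero
    polynomial is small at `(π, e^(β_1), …, e^(β_n))` (`1, β_1, …, β_n` linearly independent).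

The proof uses a quantitative form of the theorem of Lindemann and Weierstrass (Mahler), proved in
`Pool.Agent.H596.Q`, resultants, the height of factors, complex conjugation, and the transcendence
measure of `π` from the library.
-/

set_option autoImplicit false

namespace Pool.Agent.Results.MP_58e087_nt.ExponentialsOnOneLine

open Pool.Agent.H596.Q

/-- the value of `P` at `(t, e^(α_1), …, e^(α_n))`; the variable `none` stands for `t` -/
noncomputable def value {n : ℕ} (t : ℂ) (α : Fin n → ℂ) (P : MvPolynomial (Option (Fin n)) ℤ) : ℂ :=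
  MvPolynomial.aeval (fun o : Option (Fin n) => o.elim t fun i => Complex.exp (α i)) P

/-- the nonzero integer polynomials in `1 + n` variables, of degree at most `d` in every variable,
with coefficients of absolute value at most `H` -/
def Poly (n d : ℕ) (H : ℝ) : Set (MvPolynomial (Option (Fin n)) ℤ) :=
  {P | P ≠ 0 ∧ (∀ o, P.degreeOf o ≤ d) ∧ ∀ m, |((P.coeff m : ℤ) : ℝ)| ≤ H}

/-- `t` has a transcendence measure which is polynomial in the height, for every degree -/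
def HasMeasure (t : ℂ) : Prop :=
  ∀ D : ℕ, ∃ κ c : ℝ, 0 ≤ κ ∧ 0 < c ∧ ∀ P : Polynomial ℤ, P ≠ 0 → P.natDegree ≤ D →
    ∀ H : ℝ, 1 ≤ H → (∀ j, |(P.coeff j : ℝ)| ≤ H) → c ≤ H ^ κ * ‖Polynomial.aeval t P‖

lemma div_le_of {c : ℝ} {H x : ℝ} {κ : ℕ} (hH : 1 ≤ H) (h : c ≤ H ^ κ * x) : c / H ^ κ ≤ x := by
  rw [div_le_iff₀ (by positivity), mul_comm]
  exact h

/-- (2) -/
theorem two (t : ℂ) (ht : HasMeasure t) {m n : ℕ} (α : Fin m → ℂ) (β : Fin n → ℂ)
    (hα : ∀ i, IsAlgebraic ℚ (α i)) (hβ : ∀ i, IsAlgebraic ℚ (β i))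
    (hli : LinearIndependent ℚ (Sum.elim α β)) (d : ℕ) : ∃ κ : ℕ, ∃ c : ℝ, 0 < c ∧
      ∀ H : ℝ, 1 ≤ H → (∀ P ∈ Poly m d H, c / H ^ κ ≤ ‖value t α P‖) ∨
        (∀ Q ∈ Poly n d H, c / H ^ κ ≤ ‖value t β Q‖) := by
  obtain ⟨κ, c, hc, h⟩ := partG t ht α β hα hβ hli d
  refine ⟨κ, c, hc, fun H hH => ?_⟩
  by_contra hcon
  push Not at hcon
  obtain ⟨⟨P, hP, hP'⟩, ⟨Q, hQ, hQ'⟩⟩ := hcon
  have h1 := div_le_of hH (h P Q hP.1 hQ.1 hP.2.1 hQ.2.1 H hH hP.2.2 hQ.2.2)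
  exact absurd h1 (not_le.2 (max_lt hP' hQ'))

/-- (3) -/
theorem conj_measure (t : ℝ) (ht : HasMeasure (t : ℂ)) {n : ℕ} (α : Fin n → ℂ)
    (hα : ∀ i, IsAlgebraic ℚ (α i))
    (hli : LinearIndependent ℚ (Sum.elim α fun i => (starRingEnd ℂ) (α i))) (d : ℕ) :
    ∃ κ : ℕ, ∃ c : ℝ, 0 < c ∧ ∀ H : ℝ, 1 ≤ H → ∀ P ∈ Poly n d H, c / H ^ κ ≤ ‖value t α P‖ := by
  obtain ⟨κ, c, hc, h⟩ := two t ht α _ hα (fun i => conj_alg _ (hα i)) hli d
  refine ⟨κ, c, hc, fun H hH P hP => ?_⟩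
  rcases h H hH with h1 | h1
  · exact h1 P hP
  · have h2 := h1 P hP
    have h3 : value (t : ℂ) (fun i => (starRingEnd ℂ) (α i)) P =
        (starRingEnd ℂ) (value (t : ℂ) α P) := ev_conj t α P
    rw [h3, Complex.norm_conj] at h2
    exact h2

lemma pair_indep (a b : ℂ) (hb : b ≠ 0) (h : ∀ q : ℚ, a ≠ q * b) :
    LinearIndependent ℚ (Sum.elim (fun _ : Fin 1 => a) (fun _ : Fin 1 => b)) := by
  rw [Fintype.linearIndependent_iff]
  intro g hg
  rw [Fintype.sum_sum_type, Fin.sum_univ_one, Fin.sum_univ_one] at hg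
  simp only [Sum.elim_inl, Sum.elim_inr, Algebra.smul_def, eq_ratCast] at hg
  have h1 : g (Sum.inl 0) = 0 := by
    by_contra hne
    apply h (-(g (Sum.inr 0)) / g (Sum.inl 0))
    have h2 : ((g (Sum.inl 0) : ℚ) : ℂ) ≠ 0 := by exact_mod_cast hne
    push_cast
    field_simp
    linear_combination hg
  have h2 : g (Sum.inr 0) = 0 := by
    rw [h1, Rat.cast_zero, zero_mul, zero_add] at hg
    rcases mul_eq_zero.1 hg with h3 | h3
    · exact_mod_cast h3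
    · exact absurd h3 hb
  rintro (i | i)
  · rw [Subsingleton.elim i 0]; exact h1
  · rw [Subsingleton.elim i 0]; exact h2

lemma const_le {c c' : ℝ} {κ κ' : ℕ} {H : ℝ} (hH : 1 ≤ H) (hc : 0 < c) (hcc : c ≤ c') (hκ : κ' ≤ κ) :
    c / H ^ κ ≤ c' / H ^ κ' :=
  div_le_div₀ (hc.le.trans hcc) hcc (by positivity) (pow_le_pow_right₀ hH hκ)

/-- (4) -/
theorem line (t : ℝ) (ht : HasMeasure (t : ℂ)) (A : Finset ℂ)
    (hA : ∀ α ∈ A, IsAlgebraic ℚ α ∧ α ≠ 0) (d : ℕ) : ∃ κ : ℕ, ∃ c : ℝ, 0 < c ∧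
      ∀ H : ℝ, 1 ≤ H → ∃ β : ℂ, (β.im = 0 ∨ β.re = 0) ∧ ∀ α ∈ A,
        (∃ P ∈ Poly 1 d H, ‖value t (fun _ => α) P‖ < c / H ^ κ) → ∃ q : ℚ, α = q * β := by
  classical
  -- constants for the pairs
  have h1 : ∀ p : ℂ × ℂ, ∃ κ : ℕ, ∃ c : ℝ, 0 < c ∧ c ≤ 1 ∧ (p ∈ A ×ˢ A →
      (∀ q : ℚ, p.1 ≠ q * p.2) → ∀ H : ℝ, 1 ≤ H →
        (∀ P ∈ Poly 1 d H, c / H ^ κ ≤ ‖value t (fun _ => p.1) P‖) ∨
        (∀ Q ∈ Poly 1 d H, c / H ^ κ ≤ ‖value t (fun _ => p.2) Q‖)) := by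
    intro p
    by_cases hp : p ∈ A ×ˢ A ∧ ∀ q : ℚ, p.1 ≠ q * p.2
    · have h2 := Finset.mem_product.1 hp.1
      obtain ⟨κ, c, hc, h⟩ := two t ht (fun _ : Fin 1 => p.1) (fun _ : Fin 1 => p.2)
        (fun _ => (hA _ h2.1).1) (fun _ => (hA _ h2.2).1) (pair_indep _ _ (hA _ h2.2).2 hp.2) d
      refine ⟨κ, min c 1, lt_min hc one_pos, min_le_right _ _, fun _ _ H hH => ?_⟩
      have h3 := const_le (κ := κ) (κ' := κ) hH (lt_min hc one_pos) (min_le_left c 1) le_rfl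
      rcases h H hH with h4 | h4
      · exact Or.inl fun P hP => h3.trans (h4 P hP)
      · exact Or.inr fun P hP => h3.trans (h4 P hP)
    · exact ⟨0, 1, one_pos, le_rfl, fun h2 h3 => absurd ⟨h2, h3⟩ hp⟩
  choose κ₁ c₁ hc₁ hc₁1 h₁ using h1
  -- constants for the numbers off the axes
  have h2 : ∀ α : ℂ, ∃ κ : ℕ, ∃ c : ℝ, 0 < c ∧ c ≤ 1 ∧ (α ∈ A → ¬ (α.im = 0 ∨ α.re = 0) →
      ∀ H : ℝ, 1 ≤ H → ∀ P ∈ Poly 1 d H, c / H ^ κ ≤ ‖value t (fun _ => α) P‖) := by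
    intro α
    by_cases hα : α ∈ A ∧ ¬ (α.im = 0 ∨ α.re = 0)
    · have hne : (starRingEnd ℂ) α ≠ 0 := by
        rw [Ne, map_eq_zero]; exact (hA α hα.1).2
      have hq : ∀ q : ℚ, α ≠ q * (starRingEnd ℂ) α := by
        intro q hq
        push Not at hα
        have e1 := congrArg Complex.re hq
        have e2 := congrArg Complex.im hq
        simp only [Complex.mul_re, Complex.mul_im, Complex.ratCast_re, Complex.ratCast_im,
          Complex.conj_re, Complex.conj_im, zero_mul, sub_zero, add_zero] at e1 e2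
        have e3 : (q : ℝ) = 1 := by
          have : α.re * ((q : ℝ) - 1) = 0 := by linear_combination -e1
          rcases mul_eq_zero.1 this with h | h
          · exact absurd h hα.2.2
          · linarith
        rw [e3] at e2
        exact hα.2.1 (by linarith)
      obtain ⟨κ, c, hc, h⟩ := conj_measure t ht (fun _ : Fin 1 => α) (fun _ => (hA α hα.1).1)
        (pair_indep α _ hne hq) d
      refine ⟨κ, min c 1, lt_min hc one_pos, min_le_right _ _, fun _ _ H hH P hP => ?_⟩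
      exact (const_le (κ := κ) (κ' := κ) hH (lt_min hc one_pos) (min_le_left c 1) le_rfl).trans
        (h H hH P hP)
    · exact ⟨0, 1, one_pos, le_rfl, fun h3 h4 => absurd ⟨h3, h4⟩ hα⟩
  choose κ₂ c₂ hc₂ hc₂1 h₂ using h2
  refine ⟨∑ p ∈ A ×ˢ A, κ₁ p + ∑ α ∈ A, κ₂ α, (∏ p ∈ A ×ˢ A, c₁ p) * ∏ α ∈ A, c₂ α,
    mul_pos (Finset.prod_pos fun p _ => hc₁ p) (Finset.prod_pos fun α _ => hc₂ α),
    fun H hH => ?_⟩
  have hp1 : 0 < ∏ p ∈ A ×ˢ A, c₁ p := Finset.prod_pos fun p _ => hc₁ p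
  have hp2 : 0 < ∏ α ∈ A, c₂ α := Finset.prod_pos fun α _ => hc₂ α
  have hp1' : ∏ p ∈ A ×ˢ A, c₁ p ≤ 1 := Finset.prod_le_one (fun p _ => (hc₁ p).le) fun p _ => hc₁1 p
  have hp2' : ∏ α ∈ A, c₂ α ≤ 1 := Finset.prod_le_one (fun p _ => (hc₂ p).le) fun p _ => hc₂1 p
  have hle1 : ∀ p ∈ A ×ˢ A, (∏ p ∈ A ×ˢ A, c₁ p) * ∏ α ∈ A, c₂ α ≤ c₁ p := by
    intro p hp
    have e1 : ∏ p ∈ A ×ˢ A, c₁ p ≤ c₁ p := by
      rw [← Finset.mul_prod_erase _ _ hp]
      exact mul_le_of_le_one_right (hc₁ p).le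
        (Finset.prod_le_one (fun p _ => (hc₁ p).le) fun p _ => hc₁1 p)
    exact (mul_le_of_le_one_right hp1.le hp2').trans e1
  have hle2 : ∀ α ∈ A, (∏ p ∈ A ×ˢ A, c₁ p) * ∏ α ∈ A, c₂ α ≤ c₂ α := by
    intro α hα
    have e1 : ∏ α ∈ A, c₂ α ≤ c₂ α := by
      rw [← Finset.mul_prod_erase _ _ hα]
      exact mul_le_of_le_one_right (hc₂ α).le
        (Finset.prod_le_one (fun p _ => (hc₂ p).le) fun p _ => hc₂1 p)
    exact (mul_le_of_le_one_left hp2.le hp1').trans e1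
  have hk1 : ∀ p ∈ A ×ˢ A, κ₁ p ≤ ∑ p ∈ A ×ˢ A, κ₁ p + ∑ α ∈ A, κ₂ α := fun p hp =>
    (Finset.single_le_sum (f := κ₁) (fun _ _ => Nat.zero_le _) hp).trans (Nat.le_add_right _ _)
  have hk2 : ∀ α ∈ A, κ₂ α ≤ ∑ p ∈ A ×ˢ A, κ₁ p + ∑ α ∈ A, κ₂ α := fun α hα =>
    (Finset.single_le_sum (f := κ₂) (fun _ _ => Nat.zero_le _) hα).trans (Nat.le_add_left _ _)
  have hpos : 0 < (∏ p ∈ A ×ˢ A, c₁ p) * ∏ α ∈ A, c₂ α := mul_pos hp1 hp2
  by_cases hex : ∃ α ∈ A, ∃ P ∈ Poly 1 d H, ‖value t (fun _ => α) P‖ <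
      (∏ p ∈ A ×ˢ A, c₁ p) * (∏ α ∈ A, c₂ α) / H ^ (∑ p ∈ A ×ˢ A, κ₁ p + ∑ α ∈ A, κ₂ α)
  · obtain ⟨β, hβ, Q, hQ, hQs⟩ := hex
    refine ⟨β, ?_, fun α hα ⟨P, hP, hPs⟩ => ?_⟩
    · by_contra hcon
      have h3 := h₂ β hβ hcon H hH Q hQ
      exact absurd (hQs.trans_le (const_le hH hpos (hle2 β hβ) (hk2 β hβ))) (not_lt.2 h3)
    · by_contra hcon
      push Not at hcon
      have hmem : (α, β) ∈ A ×ˢ A := Finset.mem_product.2 ⟨hα, hβ⟩
      have h4 := const_le hH hpos (hle1 _ hmem) (hk1 _ hmem)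
      rcases h₁ (α, β) hmem hcon H hH with h5 | h5
      · exact absurd (hPs.trans_le h4) (not_lt.2 (h5 P hP))
      · exact absurd (hQs.trans_le h4) (not_lt.2 (h5 Q hQ))
  · push Not at hex
    refine ⟨0, Or.inl rfl, fun α hα ⟨P, hP, hPs⟩ => ?_⟩
    exact absurd hPs (not_lt.2 (hex α hα P hP))

/-- the linear polynomials -/
noncomputable def lin (a b k : ℤ) : MvPolynomial (Option (Fin 1)) ℤ :=
  MvPolynomial.C a + MvPolynomial.C b * MvPolynomial.X (some 0) +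
    MvPolynomial.C k * MvPolynomial.X none

lemma lin_coeff (a b k : ℤ) (m : Option (Fin 1) →₀ ℕ) : (lin a b k).coeff m =
    (if 0 = m then a else 0) + b * (if Finsupp.single (some 0) 1 = m then 1 else 0) +
      k * (if Finsupp.single none 1 = m then 1 else 0) := by
  classical
  rw [lin, MvPolynomial.coeff_add, MvPolynomial.coeff_add, MvPolynomial.coeff_C,
    MvPolynomial.coeff_C_mul, MvPolynomial.coeff_C_mul, MvPolynomial.coeff_X, MvPolynomial.coeff_X]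

lemma lin_mem (a b k : ℤ) (H : ℝ) (hH : 1 ≤ H) (ha : |(a : ℝ)| ≤ H) (hb : |(b : ℝ)| ≤ H)
    (hk : |(k : ℝ)| ≤ H) (hne : ¬ (a = 0 ∧ b = 0 ∧ k = 0)) (d : ℕ) (hd : 1 ≤ d) :
    lin a b k ∈ Poly 1 d H := by
  classical
  have h01 : (0 : Option (Fin 1) →₀ ℕ) ≠ Finsupp.single (some 0) 1 := by
    intro h; have := DFunLike.congr_fun h (some 0); simp at this
  have h02 : (0 : Option (Fin 1) →₀ ℕ) ≠ Finsupp.single none 1 := by
    intro h; have := DFunLike.congr_fun h none; simp at this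
  have h12 : (Finsupp.single (some 0) 1 : Option (Fin 1) →₀ ℕ) ≠ Finsupp.single none 1 := by
    intro h; have := DFunLike.congr_fun h none; simp at this
  refine ⟨?_, ?_, ?_⟩
  · intro h
    apply hne
    have e0 := lin_coeff a b k 0
    have e1 := lin_coeff a b k (Finsupp.single (some 0) 1)
    have e2 := lin_coeff a b k (Finsupp.single none 1)
    rw [h, MvPolynomial.coeff_zero] at e0 e1 e2
    rw [if_pos rfl, if_neg h01.symm, if_neg h02.symm] at e0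
    rw [if_neg h01, if_pos rfl, if_neg h12.symm] at e1
    rw [if_neg h02, if_neg h12, if_pos rfl] at e2
    refine ⟨by linarith, by linarith, by linarith⟩
  · intro o
    have hX : ∀ (z : ℤ) (j : Option (Fin 1)),
        (MvPolynomial.C z * MvPolynomial.X j : MvPolynomial (Option (Fin 1)) ℤ).degreeOf o ≤ d := by
      intro z j
      refine (MvPolynomial.degreeOf_C_mul_le _ _ _).trans ?_
      rw [MvPolynomial.degreeOf_X]
      split_ifs <;> omega
    have hC : (MvPolynomial.C a : MvPolynomial (Option (Fin 1)) ℤ).degreeOf o ≤ d := by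
      rw [MvPolynomial.degreeOf_C]; exact Nat.zero_le _
    rw [lin]
    exact (MvPolynomial.degreeOf_add_le _ _ _).trans (max_le
      ((MvPolynomial.degreeOf_add_le _ _ _).trans (max_le hC (hX b _))) (hX k _))
  · intro m
    rw [lin_coeff]
    by_cases h0 : 0 = m
    · subst h0
      rw [if_pos rfl, if_neg h01.symm, if_neg h02.symm]
      simpa using ha
    · rw [if_neg h0]
      by_cases h1 : Finsupp.single (some 0) 1 = m
      · subst h1
        rw [if_pos rfl, if_neg h12.symm]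
        simpa using hb
      · rw [if_neg h1]
        by_cases h2 : Finsupp.single none 1 = m
        · rw [if_pos h2]; simpa using hk
        · rw [if_neg h2]; simp; linarith

lemma lin_value (a b k : ℤ) : ‖value (Real.pi : ℂ) (fun _ => 1) (lin a b k)‖ =
    |(a : ℝ) + b * Real.exp 1 + k * Real.pi| := by
  have h : value (Real.pi : ℂ) (fun _ => 1) (lin a b k) =
      (((a : ℝ) + b * Real.exp 1 + k * Real.pi : ℝ) : ℂ) := by
    rw [value, lin]
    simp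
  rw [h, Complex.norm_real, Real.norm_eq_abs]

/-- (5) -/
theorem one_e_pi {n : ℕ} (β : Fin n → ℂ) (hβ : ∀ i, IsAlgebraic ℚ (β i))
    (hli : LinearIndependent ℚ (Sum.elim (fun _ : Fin 1 => (1 : ℂ)) β)) (d : ℕ) :
    ∃ κ : ℕ, ∃ c : ℝ, 0 < c ∧ ∀ H : ℝ, 1 ≤ H →
      (∀ a b k : ℤ, |(a : ℝ)| ≤ H → |(b : ℝ)| ≤ H → |(k : ℝ)| ≤ H → ¬ (a = 0 ∧ b = 0 ∧ k = 0) →
        c / H ^ κ ≤ |(a : ℝ) + b * Real.exp 1 + k * Real.pi|) ∨
      (∀ P ∈ Poly n d H, c / H ^ κ ≤ ‖value Real.pi β P‖) := by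
  obtain ⟨κ, c, hc, h⟩ := two (Real.pi : ℂ) Pool.Agent.TH456.TM.measT_pi (fun _ : Fin 1 => (1 : ℂ)) β
    (fun _ => isAlgebraic_one) hβ hli (max d 1)
  refine ⟨κ, c, hc, fun H hH => ?_⟩
  rcases h H hH with h1 | h1
  · left
    intro a b k ha hb hk hne
    rw [← lin_value]
    exact h1 _ (lin_mem a b k H hH ha hb hk hne _ (le_max_right _ _))
  · right
    intro P hP
    exact h1 P ⟨hP.1, fun o => (hP.2.1 o).trans (le_max_left _ _), hP.2.2⟩

/-- **`π` and the exponentials of algebraic numbers.** -/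
theorem result :
    -- (1) for all complex `t`: one exceptional irreducible polynomial at every scale
    (∀ (n : ℕ) (α : Fin n → ℂ), (∀ i, IsAlgebraic ℚ (α i)) → LinearIndependent ℚ α →
      ∀ (d : ℕ) (T : ℝ), ∃ κ : ℕ, ∃ c : ℝ, 0 < c ∧ ∀ t : ℂ, ‖t‖ ≤ T → ∀ H : ℝ, 1 ≤ H →
        ∃ F, Irreducible F ∧ ∀ P ∈ Poly n d H, ‖value t α P‖ < c / H ^ κ → F ∣ P) ∧
    -- (2) two families, for `t` with a transcendence measure
    (∀ t : ℂ, HasMeasure t → ∀ (m n : ℕ) (α : Fin m → ℂ) (β : Fin n → ℂ),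
      (∀ i, IsAlgebraic ℚ (α i)) → (∀ i, IsAlgebraic ℚ (β i)) →
      LinearIndependent ℚ (Sum.elim α β) → ∀ d : ℕ, ∃ κ : ℕ, ∃ c : ℝ, 0 < c ∧ ∀ H : ℝ, 1 ≤ H →
        (∀ P ∈ Poly m d H, c / H ^ κ ≤ ‖value t α P‖) ∨
        (∀ Q ∈ Poly n d H, c / H ^ κ ≤ ‖value t β Q‖)) ∧
    -- (3) a measure of algebraic independence, for real `t` with a transcendence measure
    (∀ t : ℝ, HasMeasure (t : ℂ) → ∀ (n : ℕ) (α : Fin n → ℂ), (∀ i, IsAlgebraic ℚ (α i)) →
      LinearIndependent ℚ (Sum.elim α fun i => (starRingEnd ℂ) (α i)) → ∀ d : ℕ,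
      ∃ κ : ℕ, ∃ c : ℝ, 0 < c ∧ ∀ H : ℝ, 1 ≤ H → ∀ P ∈ Poly n d H, c / H ^ κ ≤ ‖value t α P‖) ∧
    -- (4) at every scale all exceptional exponents lie on one line, contained in an axis
    (∀ t : ℝ, HasMeasure (t : ℂ) → ∀ A : Finset ℂ, (∀ α ∈ A, IsAlgebraic ℚ α ∧ α ≠ 0) → ∀ d : ℕ,
      ∃ κ : ℕ, ∃ c : ℝ, 0 < c ∧ ∀ H : ℝ, 1 ≤ H → ∃ β : ℂ, (β.im = 0 ∨ β.re = 0) ∧ ∀ α ∈ A,
        (∃ P ∈ Poly 1 d H, ‖value t (fun _ => α) P‖ < c / H ^ κ) → ∃ q : ℚ, α = q * β) ∧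
    -- (5) `1, e, π`
    (∀ (n : ℕ) (β : Fin n → ℂ), (∀ i, IsAlgebraic ℚ (β i)) →
      LinearIndependent ℚ (Sum.elim (fun _ : Fin 1 => (1 : ℂ)) β) → ∀ d : ℕ,
      ∃ κ : ℕ, ∃ c : ℝ, 0 < c ∧ ∀ H : ℝ, 1 ≤ H →
        (∀ a b k : ℤ, |(a : ℝ)| ≤ H → |(b : ℝ)| ≤ H → |(k : ℝ)| ≤ H → ¬ (a = 0 ∧ b = 0 ∧ k = 0) →
          c / H ^ κ ≤ |(a : ℝ) + b * Real.exp 1 + k * Real.pi|) ∨
        (∀ P ∈ Poly n d H, c / H ^ κ ≤ ‖value Real.pi β P‖)) ∧
    HasMeasure (Real.pi : ℂ) := by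
  refine ⟨fun n α hα hli d T => ?_, fun t ht m n α β hα hβ hli d => two t ht α β hα hβ hli d,
    fun t ht n α hα hli d => conj_measure t ht α hα hli d, fun t ht A hA d => line t ht A hA d,
    fun n β hβ hli d => one_e_pi β hβ hli d, Pool.Agent.TH456.TM.measT_pi⟩
  obtain ⟨κ, c, hc, h⟩ := one_factor α hα hli d T
  refine ⟨κ, c, hc, fun t ht H hH => ?_⟩
  obtain ⟨F, hF, h1⟩ := h t ht H hH
  refine ⟨F, hF, fun P hP hs => h1 P hP.1 hP.2.1 hP.2.2 ?_⟩
  rw [lt_div_iff₀ (by positivity), mul_comm] at hs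
  exact hs

end Pool.Agent.Results.MP_58e087_nt.ExponentialsOnOneLine
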