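import Pool.Agent.H596.U.Dep

/-!
# Near relations between `1`, `π`, other numbers and exponentials of algebraic numbers at one scale:
# the rank is at most the number of the arbitrary numbers

`AlgH D H` is the set of the algebraic numbers of degree at most `D` and height at most `H`. All the
constants `k` below are independent of the scale `H ≥ 2` and of the numbers `t_i`. The `t_i` are
ARBITRARY complex numbers, for instance `t_1 = π`.

(1) Linear relations with algebraic coefficients. Let `α_1, …, α_n` be distinct nonzero algebraic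
    numbers. Any `r + 1` near relations `|∑ b_i t_i + v_0 + ∑ v_j e^(α_j)| ≤ H^(-k)` with
    coefficients in `AlgH D H`, at the same scale, are linearly dependent over the algebraic
    numbers. So at each scale only `r` of the exponentials can be involved in an essential way.
(2) For `r = 1`, `t = π`, `α = 1`: for all `D` there is `k` such that all near relations
    `|a + b e + c π| ≤ H^(-k)`, `a, b, c` in `AlgH D H`, of the same scale are proportional.
(3) Polynomial relations. Let `α^(j)`, `j ∈ J`, be more than `r` finite families of algebraic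
    numbers, all together linearly independent over `ℚ`. For all `k₀` there is `k` such that: if
    `P_j` is a polynomial of bounded degree with integer coefficients at most `H` and
    `|P_j(t_1, …, t_r, e^(α^(j)))| ≤ H^(-k)` for ALL `j ∈ J`, then for one `j` this is trivial: all
    the coefficients of `P_j(t, X)`, as a polynomial in `X`, are at most `H^(-k₀)`. So at each scale
    at most `r` of the families of exponentials are nearly dependent over the field of the `t_i`.
(4) Real numbers `t_1, …, t_r`: the same holds for more than `r / 2` families if they and their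
    complex conjugates are all together linearly independent over `ℚ`.
(5) In particular: if `α_1, …, α_n` and their complex conjugates are linearly independent then
    `e^(α_1), …, e^(α_n)` have a measure of algebraic independence over the field of `t`, uniformly
    for all real numbers `t`: `|P(t, e^(α_1), …, e^(α_n))| > H^(-k)` if one of the coefficients of
    `P(t, X)` is larger than `H^(-k₀)`.

The proof: in an ultrapower of `ℂ` (`Pool.Agent.H596.U`) the near relations become exact relations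
for numbers close to the `t_i`; then the theorem of Lindemann and Weierstrass, linear algebra over
the algebraic numbers for (1) and the transcendence degree for (3). The quantitative input is the
theorem of Lindemann and Weierstrass with a measure (`Pool.Agent.H596.Q`).
-/

set_option autoImplicit false

namespace Pool.Agent.Results.MP_58e087_nt.RankOfNearRelations

/-- the algebraic numbers of degree at most `D` and height at most `H` -/
def AlgH (D : ℕ) (H : ℝ) : Set ℂ :=
  {ρ | ∃ R : Polynomial ℤ, R ≠ 0 ∧ R.natDegree ≤ D ∧ (∀ j, |((R.coeff j : ℤ) : ℝ)| ≤ H) ∧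
    Polynomial.aeval ρ R = 0}

/-- the sum `v_0 + ∑ v_j e^(α_j)`; the index `none` stands for `0` -/
noncomputable def sum {n : ℕ} (α : Fin n → ℂ) (v : Option (Fin n) → ℂ) : ℂ :=
  v none + ∑ i, v (some i) * Complex.exp (α i)

/-- the polynomials `P(T, X)` in `X_1, …, X_n` with coefficients in `ℤ[T_1, …, T_r]`; the total
degrees of `P` in `X` and of the coefficients are at most `d`, all the integers are at most `H` -/
def Poly (r n d : ℕ) (H : ℝ) : Set (MvPolynomial (Fin n) (MvPolynomial (Fin r) ℤ)) :=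
  {P | P.totalDegree ≤ d ∧ (∀ m, (P.coeff m).totalDegree ≤ d) ∧
    ∀ m l, |(((P.coeff m).coeff l : ℤ) : ℝ)| ≤ H}

/-- the value `P(t_1, …, t_r, e^(α_1), …, e^(α_n))` -/
noncomputable def value {r n : ℕ} (t : Fin r → ℂ) (α : Fin n → ℂ)
    (P : MvPolynomial (Fin n) (MvPolynomial (Fin r) ℤ)) : ℂ :=
  MvPolynomial.eval₂ ((MvPolynomial.aeval t : MvPolynomial (Fin r) ℤ →ₐ[ℤ] ℂ) :
    MvPolynomial (Fin r) ℤ →+* ℂ) (fun i => Complex.exp (α i)) P

/-- all the coefficients of `P(t, X)` are at most `ε` -/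
def Trivial {r n : ℕ} (t : Fin r → ℂ) (P : MvPolynomial (Fin n) (MvPolynomial (Fin r) ℤ))
    (ε : ℝ) : Prop :=
  ∀ m, ‖MvPolynomial.aeval t (P.coeff m)‖ ≤ ε

lemma conj_alg {z : ℂ} (h : IsAlgebraic ℚ z) : IsAlgebraic ℚ ((starRingEnd ℂ) z) := by
  obtain ⟨p, hp, hpz⟩ := h
  refine ⟨p, hp, ?_⟩
  have h5 : Polynomial.aeval ((starRingEnd ℂ) z) p = (starRingEnd ℂ) (Polynomial.aeval z p) := by
    rw [Polynomial.aeval_eq_sum_range, Polynomial.aeval_eq_sum_range, map_sum]
    refine Finset.sum_congr rfl fun j _ => ?_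
    rw [Algebra.smul_def, Algebra.smul_def, map_mul, map_pow]
    congr 1
    simp
  rw [h5, hpz, map_zero]

lemma conj_aeval {r : ℕ} (t : Fin r → ℝ) (p : MvPolynomial (Fin r) ℤ) :
    (starRingEnd ℂ) (MvPolynomial.aeval (fun i => (t i : ℂ)) p) =
      MvPolynomial.aeval (fun i => (t i : ℂ)) p := by
  have h : ((starRingEnd ℂ : ℂ →+* ℂ).comp ((MvPolynomial.aeval (fun i => (t i : ℂ)) :
      MvPolynomial (Fin r) ℤ →ₐ[ℤ] ℂ) : MvPolynomial (Fin r) ℤ →+* ℂ)) =
      ((MvPolynomial.aeval (fun i => (t i : ℂ)) :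
      MvPolynomial (Fin r) ℤ →ₐ[ℤ] ℂ) : MvPolynomial (Fin r) ℤ →+* ℂ) := by
    refine MvPolynomial.ringHom_ext (fun n => by simp) fun i => by simp
  exact congrArg (fun g : MvPolynomial (Fin r) ℤ →+* ℂ => g p) h

lemma conj_value {r n : ℕ} (t : Fin r → ℝ) (α : Fin n → ℂ)
    (P : MvPolynomial (Fin n) (MvPolynomial (Fin r) ℤ)) :
    value (fun i => (t i : ℂ)) (fun i => (starRingEnd ℂ) (α i)) P =
      (starRingEnd ℂ) (value (fun i => (t i : ℂ)) α P) := by
  rw [value, value, MvPolynomial.eval₂_eq', MvPolynomial.eval₂_eq', map_sum]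
  refine Finset.sum_congr rfl fun m _ => ?_
  rw [map_mul, map_prod]
  congr 1
  · exact (conj_aeval t (P.coeff m)).symm
  · refine Finset.prod_congr rfl fun i _ => ?_
    rw [map_pow, ← Complex.exp_conj]

/-- (3) -/
theorem families {r : ℕ} {J : Type} [Fintype J] (hJ : r < Fintype.card J) {n : J → ℕ}
    (α : (j : J) → Fin (n j) → ℂ) (hα : ∀ j i, IsAlgebraic ℚ (α j i))
    (hli : LinearIndependent ℚ fun p : (j : J) × Fin (n j) => α p.1 p.2) (d B k₀ : ℕ) :
    ∃ k : ℕ, ∀ H : ℝ, 2 ≤ H → ∀ t : Fin r → ℂ, (∀ i, ‖t i‖ ≤ H ^ B) →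
      ∀ P : (j : J) → MvPolynomial (Fin (n j)) (MvPolynomial (Fin r) ℤ),
        (∀ j, P j ∈ Poly r (n j) d H) → (∀ j, ‖value t (α j) (P j)‖ ≤ 1 / H ^ k) →
        ∃ j, Trivial t (P j) (1 / H ^ k₀) := by
  obtain ⟨k, hk⟩ := H596.U.dep_rank hJ α hα hli d B k₀
  exact ⟨k, fun H hH t ht P hP hs => hk H hH t ht P (fun j => (hP j).1) (fun j => (hP j).2.1)
    (fun j => (hP j).2.2) hs⟩

/-- (4) -/
theorem real_families {r : ℕ} {J : Type} [Fintype J] (hJ : r < 2 * Fintype.card J) {n : J → ℕ}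
    (α : (j : J) → Fin (n j) → ℂ) (hα : ∀ j i, IsAlgebraic ℚ (α j i))
    (hli : LinearIndependent ℚ (Sum.elim (fun p : (j : J) × Fin (n j) => α p.1 p.2)
      fun p : (j : J) × Fin (n j) => (starRingEnd ℂ) (α p.1 p.2))) (d B k₀ : ℕ) :
    ∃ k : ℕ, ∀ H : ℝ, 2 ≤ H → ∀ t : Fin r → ℝ, (∀ i, |t i| ≤ H ^ B) →
      ∀ P : (j : J) → MvPolynomial (Fin (n j)) (MvPolynomial (Fin r) ℤ),
        (∀ j, P j ∈ Poly r (n j) d H) →
        (∀ j, ‖value (fun i => (t i : ℂ)) (α j) (P j)‖ ≤ 1 / H ^ k) →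
        ∃ j, Trivial (fun i => (t i : ℂ)) (P j) (1 / H ^ k₀) := by
  classical
  -- the families and their conjugates
  let α' : (j : J ⊕ J) → Fin (Sum.elim n n j) → ℂ :=
    fun j => match j with
      | .inl j => α j
      | .inr j => fun i => (starRingEnd ℂ) (α j i)
  have hli' : LinearIndependent ℚ fun p : (j : J ⊕ J) × Fin (Sum.elim n n j) => α' p.1 p.2 := by
    let e : ((j : J ⊕ J) × Fin (Sum.elim n n j)) → ((j : J) × Fin (n j)) ⊕ ((j : J) × Fin (n j)) :=
      fun p => match p with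
        | ⟨.inl j, i⟩ => .inl ⟨j, i⟩
        | ⟨.inr j, i⟩ => .inr ⟨j, i⟩
    have he : Function.Injective e := by
      rintro ⟨j | j, i⟩ ⟨j' | j', i'⟩ h
      · obtain ⟨rfl, h2⟩ := Sigma.mk.inj_iff.1 (Sum.inl.inj h)
        rw [eq_of_heq h2]
      · cases h
      · cases h
      · obtain ⟨rfl, h2⟩ := Sigma.mk.inj_iff.1 (Sum.inr.inj h)
        rw [eq_of_heq h2]
    have h1 := hli.comp e he
    convert h1 using 1
    funext p
    rcases p with ⟨j | j, i⟩ <;> rfl
  obtain ⟨k, hk⟩ := families (r := r) (J := J ⊕ J) (by rw [Fintype.card_sum]; omega) α' (by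
    rintro (j | j) i
    · exact hα j i
    · exact conj_alg (hα j i)) hli' d B k₀
  refine ⟨k, fun H hH t ht P hP hs => ?_⟩
  let P' : (j : J ⊕ J) → MvPolynomial (Fin (Sum.elim n n j)) (MvPolynomial (Fin r) ℤ) :=
    fun j => match j with
      | .inl j => P j
      | .inr j => P j
  obtain ⟨j, hj⟩ := hk H hH (fun i => (t i : ℂ)) (fun i => by
      rw [Complex.norm_real, Real.norm_eq_abs]; exact ht i) P' (by
      rintro (j | j)
      · exact hP j
      · exact hP j) (by
      rintro (j | j)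
      · exact hs j
      · change ‖value (fun i => (t i : ℂ)) (fun i => (starRingEnd ℂ) (α j i)) (P j)‖ ≤ _
        rw [conj_value, Complex.norm_conj]
        exact hs j)
  rcases j with j | j
  · exact ⟨j, hj⟩
  · exact ⟨j, hj⟩

/-- **The rank of the near relations.** -/
theorem result :
    -- (1) linear relations with algebraic coefficients
    (∀ (r n : ℕ) (α : Fin n → ℂ), (∀ i, IsAlgebraic ℚ (α i)) → (∀ i, α i ≠ 0) →
      Function.Injective α → ∀ D B : ℕ, ∃ k : ℕ, ∀ H : ℝ, 2 ≤ H →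
      ∀ t : Fin r → ℂ, (∀ i, ‖t i‖ ≤ H ^ B) →
      ∀ (b : Fin (r + 1) → Fin r → ℂ) (v : Fin (r + 1) → Option (Fin n) → ℂ),
        (∀ l i, b l i ∈ AlgH D H) → (∀ l o, v l o ∈ AlgH D H) →
        (∀ l, ‖∑ i, b l i * t i + sum α (v l)‖ ≤ 1 / H ^ k) →
        ∃ c : Fin (r + 1) → ℂ, (∀ l, IsAlgebraic ℚ (c l)) ∧ (∃ l, c l ≠ 0) ∧
          (∀ i, ∑ l, c l * b l i = 0) ∧ ∀ o, ∑ l, c l * v l o = 0) ∧
    -- (2) `1, e, π`
    (∀ D : ℕ, ∃ k : ℕ, ∀ H : ℝ, 2 ≤ H → ∀ a ∈ AlgH D H, ∀ b ∈ AlgH D H, ∀ c ∈ AlgH D H,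
      ∀ a' ∈ AlgH D H, ∀ b' ∈ AlgH D H, ∀ c' ∈ AlgH D H,
      ‖a + b * Complex.exp 1 + c * (Real.pi : ℂ)‖ ≤ 1 / H ^ k →
      ‖a' + b' * Complex.exp 1 + c' * (Real.pi : ℂ)‖ ≤ 1 / H ^ k →
      ∃ x y : ℂ, IsAlgebraic ℚ x ∧ IsAlgebraic ℚ y ∧ (x ≠ 0 ∨ y ≠ 0) ∧
        x * a + y * a' = 0 ∧ x * b + y * b' = 0 ∧ x * c + y * c' = 0) ∧
    -- (3) more than `r` families of exponentials
    (∀ (r : ℕ) (J : Type) (_ : Fintype J), r < Fintype.card J → ∀ (n : J → ℕ)
      (α : (j : J) → Fin (n j) → ℂ), (∀ j i, IsAlgebraic ℚ (α j i)) →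
      (LinearIndependent ℚ fun p : (j : J) × Fin (n j) => α p.1 p.2) → ∀ d B k₀ : ℕ,
      ∃ k : ℕ, ∀ H : ℝ, 2 ≤ H → ∀ t : Fin r → ℂ, (∀ i, ‖t i‖ ≤ H ^ B) →
        ∀ P : (j : J) → MvPolynomial (Fin (n j)) (MvPolynomial (Fin r) ℤ),
          (∀ j, P j ∈ Poly r (n j) d H) → (∀ j, ‖value t (α j) (P j)‖ ≤ 1 / H ^ k) →
          ∃ j, Trivial t (P j) (1 / H ^ k₀)) ∧
    -- (4) real numbers, more than `r / 2` families
    (∀ (r : ℕ) (J : Type) (_ : Fintype J), r < 2 * Fintype.card J → ∀ (n : J → ℕ)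
      (α : (j : J) → Fin (n j) → ℂ), (∀ j i, IsAlgebraic ℚ (α j i)) →
      LinearIndependent ℚ (Sum.elim (fun p : (j : J) × Fin (n j) => α p.1 p.2)
        fun p : (j : J) × Fin (n j) => (starRingEnd ℂ) (α p.1 p.2)) → ∀ d B k₀ : ℕ,
      ∃ k : ℕ, ∀ H : ℝ, 2 ≤ H → ∀ t : Fin r → ℝ, (∀ i, |t i| ≤ H ^ B) →
        ∀ P : (j : J) → MvPolynomial (Fin (n j)) (MvPolynomial (Fin r) ℤ),
          (∀ j, P j ∈ Poly r (n j) d H) →
          (∀ j, ‖value (fun i => (t i : ℂ)) (α j) (P j)‖ ≤ 1 / H ^ k) →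
          ∃ j, Trivial (fun i => (t i : ℂ)) (P j) (1 / H ^ k₀)) ∧
    -- (5) one real number, one family
    (∀ (n : ℕ) (α : Fin n → ℂ), (∀ i, IsAlgebraic ℚ (α i)) →
      LinearIndependent ℚ (Sum.elim α fun i => (starRingEnd ℂ) (α i)) → ∀ d B k₀ : ℕ,
      ∃ k : ℕ, ∀ H : ℝ, 2 ≤ H → ∀ t : ℝ, |t| ≤ H ^ B → ∀ P ∈ Poly 1 n d H,
        (∃ m, 1 / H ^ k₀ < ‖MvPolynomial.aeval (fun _ : Fin 1 => (t : ℂ)) (P.coeff m)‖) →
        1 / H ^ k < ‖value (fun _ : Fin 1 => (t : ℂ)) α P‖) := by
  classical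
  refine ⟨fun r n α hα h0 hinj D B => H596.U.linear_rank α hα h0 hinj D B, fun D => ?_,
    fun r J _ hJ n α hα hli d B k₀ => families hJ α hα hli d B k₀,
    fun r J _ hJ n α hα hli d B k₀ => real_families hJ α hα hli d B k₀,
    fun n α hα hli d B k₀ => ?_⟩
  · obtain ⟨k, hk⟩ := H596.U.linear_rank (r := 1) (fun _ : Fin 1 => (1 : ℂ))
      (fun _ => isAlgebraic_one) (fun _ => one_ne_zero) (fun _ _ _ => Subsingleton.elim _ _) D 2
    refine ⟨k, fun H hH a ha b hb c hc a' ha' b' hb' c' hc' h1 h2 => ?_⟩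
    have hpi : ‖(Real.pi : ℂ)‖ ≤ H ^ 2 := by
      rw [Complex.norm_real, Real.norm_eq_abs, abs_of_pos Real.pi_pos]
      have := Real.pi_le_four
      nlinarith
    obtain ⟨x, hx1, ⟨l, hl⟩, hx3, hx4⟩ := hk H hH (fun _ => (Real.pi : ℂ)) (fun _ => hpi)
      ![fun _ => c, fun _ => c'] ![fun o => o.elim a fun _ => b, fun o => o.elim a' fun _ => b'] (by
        intro l i
        fin_cases l
        · exact hc
        · exact hc') (by
        intro l o
        fin_cases l <;> rcases o with _ | o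
        · exact ha
        · exact hb
        · exact ha'
        · exact hb') (by
        intro l
        fin_cases l
        · refine le_trans (le_of_eq ?_) h1
          congr 1
          simp [H596.U.esum]
          ring
        · refine le_trans (le_of_eq ?_) h2
          congr 1
          simp [H596.U.esum]
          ring)
    refine ⟨x 0, x 1, hx1 0, hx1 1, ?_, ?_, ?_, ?_⟩
    · fin_cases l
      · exact Or.inl hl
      · exact Or.inr hl
    · simpa [Fin.sum_univ_two] using hx4 none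
    · simpa [Fin.sum_univ_two] using hx4 (some 0)
    · simpa [Fin.sum_univ_two] using hx3 0
  · obtain ⟨k, hk⟩ := real_families (r := 1) (J := Unit) (by simp) (n := fun _ => n) (fun _ => α)
      (fun _ i => hα i) (by
        let e : (((_ : Unit) × Fin n) ⊕ ((_ : Unit) × Fin n)) → Fin n ⊕ Fin n :=
          Sum.map (fun p => p.2) fun p => p.2
        have he : Function.Injective e := Sum.map_injective.2
          ⟨fun p q h => Sigma.ext rfl (heq_of_eq h), fun p q h => Sigma.ext rfl (heq_of_eq h)⟩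
        have h1 := hli.comp e he
        convert h1 using 1
        funext p
        rcases p with p | p <;> rfl) d B k₀
    refine ⟨k, fun H hH t ht P hP hm => ?_⟩
    by_contra hcon
    obtain ⟨-, hj⟩ := hk H hH (fun _ => t) (fun _ => ht) (fun _ => P) (fun _ => hP)
      (fun _ => not_lt.1 hcon)
    obtain ⟨m, hm⟩ := hm
    exact absurd (hj m) (not_le.2 hm)

end Pool.Agent.Results.MP_58e087_nt.RankOfNearRelations
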